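import Pool.Agent.H.MP_5cc280_co.Nm.Def

namespace MP5cc280.Nm

open Finset

/-- the differences -/
private theorem al_gg (s : ℕ) : ∀ n, gg s (n + 1) = gg s n + gg (s + 1) n := by
  induction s using Nat.strong_induction_on with
  | _ s ih =>
    intro n
    match s, ih with
    | 0, _ =>
      simp only [gg, Nat.factorial_succ]
      ring
    | 1, _ =>
      simp only [gg, Nat.factorial_succ]
      ring
    | s + 2, ih =>
      have h1 := ih s (by omega) (n + 1)
      have h2 := ih (s + 1) (by omega) n
      have e1 : gg (s + 2) (n + 1) = (n + 1) * gg (s + 1) (n + 1) + (s + 1) * gg s (n + 1 + 1) :=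
        rfl
      have e2 : gg (s + 2) n = n * gg (s + 1) n + (s + 1) * gg s (n + 1) := rfl
      have e3 : gg (s + 2 + 1) n = n * gg (s + 2) n + (s + 1 + 1) * gg (s + 1) (n + 1) := rfl
      have h2' : gg (s + 1) (n + 1) = gg (s + 1) n + gg (s + 2) n := h2
      rw [e1, e3, h1, h2', e2]
      ring

private theorem al_sum (s : ℕ) : ∀ n, (gg s n : ℝ) =
    ∑ l ∈ range (s + 1), (-1) ^ (s + l) * (s.choose l : ℝ) * ((n + l).factorial : ℝ) := by
  induction s with
  | zero =>
    intro n
    simp [gg]
  | succ s ih =>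
    intro n
    have h1 : (gg (s + 1) n : ℝ) = gg s (n + 1) - gg s n := by
      rw [al_gg s n]
      push_cast
      ring
    have h2 : ∑ l ∈ range (s + 1 + 1), (-1 : ℝ) ^ (s + 1 + l) * ((s + 1).choose l : ℝ) *
        ((n + l).factorial : ℝ) =
        ∑ l ∈ range (s + 1), (-1 : ℝ) ^ (s + l) * (s.choose l : ℝ) *
          ((n + 1 + l).factorial : ℝ) +
        (∑ l ∈ range (s + 1), (-1 : ℝ) ^ (s + l) * (s.choose (l + 1) : ℝ) *
          ((n + (l + 1)).factorial : ℝ) + (-1) ^ (s + 1) * (n.factorial : ℝ)) := by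
      rw [sum_range_succ', ← add_assoc, ← sum_add_distrib]
      congr 1
      · refine sum_congr rfl fun l _ => ?_
        rw [Nat.choose_succ_succ, show n + 1 + l = n + (l + 1) by ring,
          show s + 1 + (l + 1) = (s + l) + 2 by ring, pow_add _ (s + l) 2]
        push_cast
        ring
      · simp
    have h3 : ∑ l ∈ range (s + 1), (-1 : ℝ) ^ (s + l) * (s.choose l : ℝ) *
        ((n + l).factorial : ℝ) =
        -(∑ l ∈ range (s + 1), (-1 : ℝ) ^ (s + l) * (s.choose (l + 1) : ℝ) *
          ((n + (l + 1)).factorial : ℝ) + (-1) ^ (s + 1) * (n.factorial : ℝ)) := by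
      have h4 : ∑ l ∈ range (s + 1), (-1 : ℝ) ^ (s + l) * (s.choose l : ℝ) *
          ((n + l).factorial : ℝ) = ∑ l ∈ range (s + 1 + 1), (-1 : ℝ) ^ (s + l) *
            (s.choose l : ℝ) * ((n + l).factorial : ℝ) := by
        rw [sum_range_succ _ (s + 1), Nat.choose_succ_self]
        simp
      rw [h4, sum_range_succ', neg_add, ← sum_neg_distrib]
      congr 1
      · refine sum_congr rfl fun l _ => ?_
        rw [← add_assoc s l 1, pow_succ]
        ring
      · rw [pow_succ]
        simp
    rw [h1, ih (n + 1), ih n, h2, h3]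
    ring

private theorem al_part (P T m : ℕ) : ∑ k ∈ range (m + 1), (-1 : ℝ) ^ k *
    ((T + 1).choose k : ℝ) * ((P : ℝ) + 1 + 2 * k) * ((P + k).factorial : ℝ) /
      ((P + 1 + (T + 1) + k).factorial : ℝ) =
    (-1) ^ m * (T.choose m : ℝ) * ((P + 1 + m).factorial : ℝ) /
      ((P + 1 + (T + 1) + m).factorial : ℝ) := by
  induction m with
  | zero =>
    simp [Nat.factorial_succ]
  | succ m ih =>
    rw [sum_range_succ, ih]
    have hc : ((m : ℝ) + 1) * (T.choose (m + 1) : ℝ) = ((T : ℝ) - m) * (T.choose m : ℝ) := by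
      have h := Nat.choose_succ_right_eq T m
      rcases le_or_gt m T with hm | hm
      · have h' : ((T.choose (m + 1) * (m + 1) : ℕ) : ℝ) = ((T.choose m * (T - m) : ℕ) : ℝ) := by
          rw [h]
        push_cast [Nat.cast_sub hm] at h'
        linarith
      · rw [Nat.choose_eq_zero_of_lt hm, Nat.choose_eq_zero_of_lt (by omega)]
        simp
    have e1 : ((P + 1 + (T + 1) + (m + 1)).factorial : ℝ) =
        ((P : ℝ) + T + m + 3) * ((P + 1 + (T + 1) + m).factorial : ℝ) := by
      rw [show P + 1 + (T + 1) + (m + 1) = (P + 1 + (T + 1) + m) + 1 by ring,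
        Nat.factorial_succ]
      push_cast
      ring
    have e2 : ((P + 1 + (m + 1)).factorial : ℝ) =
        ((P : ℝ) + m + 2) * ((P + 1 + m).factorial : ℝ) := by
      rw [show P + 1 + (m + 1) = (P + 1 + m) + 1 by ring, Nat.factorial_succ]
      push_cast
      ring
    have e3 : P + (m + 1) = P + 1 + m := by ring
    have e4 : ((T + 1).choose (m + 1) : ℝ) = (T.choose m : ℝ) + (T.choose (m + 1) : ℝ) := by
      rw [Nat.choose_succ_succ]
      push_cast
      ring
    rw [e1, e2, e3, e4]
    have hG : ((P + 1 + (T + 1) + m).factorial : ℝ) ≠ 0 := by positivity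
    have hH : (P : ℝ) + T + m + 3 ≠ 0 := by positivity
    generalize ((P + 1 + (T + 1) + m).factorial : ℝ) = G at hG ⊢
    generalize ((P + 1 + m).factorial : ℝ) = F
    generalize (T.choose m : ℝ) = c at hc ⊢
    generalize (T.choose (m + 1) : ℝ) = d at hc ⊢
    rw [pow_succ]
    generalize (-1 : ℝ) ^ m = w
    push_cast
    field_simp
    linear_combination (-F * w) * hc

private theorem al_inner (P T : ℕ) : ∑ k ∈ range (T + 1), (-1 : ℝ) ^ k *
    (T.choose k : ℝ) * ((P : ℝ) + 1 + 2 * k) * ((P + k).factorial : ℝ) /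
      ((P + 1 + T + k).factorial : ℝ) = if T = 0 then 1 else 0 := by
  cases T with
  | zero =>
    have h : (P.factorial : ℝ) ≠ 0 := by positivity
    have h' : (P : ℝ) + 1 ≠ 0 := by positivity
    simp [Nat.factorial_succ]
    exact ⟨h', Nat.factorial_ne_zero P⟩
  | succ T =>
    rw [al_part, Nat.choose_succ_self]
    simp

private theorem al_star (p t : ℕ) : ∑ s ∈ range (t + 1), (t.choose s : ℝ) *
    ((p : ℝ) + 1 + 2 * s) * (gg s (p + s) : ℝ) / ((p + 1 + t + s).factorial : ℝ) = 1 := by
  have h1 : ∀ s ∈ range (t + 1), (t.choose s : ℝ) *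
      ((p : ℝ) + 1 + 2 * s) * (gg s (p + s) : ℝ) / ((p + 1 + t + s).factorial : ℝ) =
      ∑ l ∈ range (t + 1), (t.choose s : ℝ) * ((p : ℝ) + 1 + 2 * s) *
        ((-1) ^ (s + l) * (s.choose l : ℝ) * ((p + s + l).factorial : ℝ)) /
          ((p + 1 + t + s).factorial : ℝ) := by
    intro s hs
    have hs' : s ≤ t := by
      rw [mem_range] at hs
      omega
    obtain ⟨u, rfl⟩ := Nat.exists_eq_add_of_le hs'
    rw [show s + u + 1 = (s + 1) + u by ring, sum_range_add, al_sum s (p + s), mul_sum, sum_div]
    rw [left_eq_add]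
    refine sum_eq_zero fun x _ => ?_
    rw [Nat.choose_eq_zero_of_lt (show s < s + 1 + x by omega)]
    simp
  rw [sum_congr rfl h1, sum_comm]
  have h2 : ∀ l ∈ range (t + 1), ∑ s ∈ range (t + 1), (t.choose s : ℝ) *
      ((p : ℝ) + 1 + 2 * s) * ((-1) ^ (s + l) * (s.choose l : ℝ) *
        ((p + s + l).factorial : ℝ)) / ((p + 1 + t + s).factorial : ℝ) =
      if l = t then 1 else 0 := by
    intro l hl
    have hl' : l ≤ t := by
      rw [mem_range] at hl
      omega
    obtain ⟨u, rfl⟩ := Nat.exists_eq_add_of_le hl'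
    have h3 : ∑ s ∈ range (l + u + 1), ((l + u).choose s : ℝ) *
        ((p : ℝ) + 1 + 2 * s) * ((-1) ^ (s + l) * (s.choose l : ℝ) *
          ((p + s + l).factorial : ℝ)) / ((p + 1 + (l + u) + s).factorial : ℝ) =
        ((l + u).choose l : ℝ) * ∑ k ∈ range (u + 1), (-1 : ℝ) ^ k *
          (u.choose k : ℝ) * (((p + 2 * l : ℕ) : ℝ) + 1 + 2 * k) *
            ((p + 2 * l + k).factorial : ℝ) / ((p + 2 * l + 1 + u + k).factorial : ℝ) := by
      rw [add_assoc l u 1, sum_range_add, mul_sum]
      rw [sum_eq_zero (s := range l), zero_add]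
      · refine sum_congr rfl fun k hk => ?_
        have hk' : k ≤ u := by
          rw [mem_range] at hk
          omega
        have h4 : (l + u).choose (l + k) * (l + k).choose l = (l + u).choose l * u.choose k := by
          rw [Nat.choose_mul (show l ≤ l + k by omega), Nat.add_sub_cancel_left,
            Nat.add_sub_cancel_left]
        have h4' : ((l + u).choose (l + k) : ℝ) * ((l + k).choose l : ℝ) =
            ((l + u).choose l : ℝ) * (u.choose k : ℝ) := by
          exact_mod_cast h4
        have h5 : (-1 : ℝ) ^ (l + k + l) = (-1) ^ k := by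
          rw [show l + k + l = 2 * l + k by ring, pow_add, pow_mul]
          simp
        rw [h5, show p + (l + k) + l = p + 2 * l + k by ring,
          show p + 1 + (l + u) + (l + k) = p + 2 * l + 1 + u + k by ring, ← mul_div_assoc]
        congr 1
        push_cast
        linear_combination ((p : ℝ) + 1 + 2 * (l + k)) * (-1) ^ k *
          ((p + 2 * l + k).factorial : ℝ) * h4'
      · intro s hs
        rw [mem_range] at hs
        rw [Nat.choose_eq_zero_of_lt hs]
        simp
    rw [h3, al_inner]
    rcases Nat.eq_zero_or_pos u with rfl | hu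
    · simp
    · rw [if_neg (by omega), if_neg (by omega), mul_zero]
  rw [sum_congr rfl h2, sum_ite_eq']
  simp

theorem be_sum (q j e : ℕ) (hq : 1 ≤ q) (he : e ≤ j) :
    ∑ s ∈ range (j + 1), be q j s *
      (((j - s).choose e : ℝ) * ((q + j + s).descFactorial e : ℝ)) = (j.choose e : ℝ) := by
  obtain ⟨p, rfl⟩ := Nat.exists_eq_add_of_le' hq
  obtain ⟨t, rfl⟩ := Nat.exists_eq_add_of_le' he
  rw [show t + e + 1 = (t + 1) + e by ring, sum_range_add]
  rw [sum_eq_zero (s := range e), add_zero]
  · have h := al_star p t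
    rw [← mul_one (((t + e).choose e : ℕ) : ℝ), ← h, mul_sum]
    refine sum_congr rfl fun s hs => ?_
    have hs' : s ≤ t := by
      rw [mem_range] at hs
      omega
    have h1 : (t + e).choose s * (t + e - s).choose e = (t + e).choose e * t.choose s := by
      have h2 := Nat.choose_mul (n := t + e) (k := s + e) (s := s) (by omega)
      have h3 := Nat.choose_mul (n := t + e) (k := s + e) (s := e) (by omega)
      rw [Nat.add_sub_cancel_left] at h2
      rw [Nat.add_sub_cancel, Nat.add_sub_cancel] at h3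
      rw [← h2, ← h3, Nat.choose_symm_add]
    have h1' : ((t + e).choose s : ℝ) * ((t + e - s).choose e : ℝ) =
        ((t + e).choose e : ℝ) * (t.choose s : ℝ) := by
      exact_mod_cast h1
    have h4 : ((p + 1 + t + s).factorial : ℝ) * ((p + 1 + (t + e) + s).descFactorial e : ℝ) =
        ((p + 1 + (t + e) + s).factorial : ℝ) := by
      have h5 := Nat.factorial_mul_descFactorial (show e ≤ p + 1 + (t + e) + s by omega)
      rw [show p + 1 + (t + e) + s - e = p + 1 + t + s by omega] at h5
      exact_mod_cast h5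
    unfold be
    rw [show p + 1 + s - 1 = p + s by omega, ← h4]
    have h6 : ((p + 1 + t + s).factorial : ℝ) ≠ 0 := by positivity
    have h7 : ((p + 1 + (t + e) + s).descFactorial e : ℝ) ≠ 0 := by
      intro h8
      rw [h8, mul_zero] at h4
      have : (0 : ℝ) < ((p + 1 + (t + e) + s).factorial : ℝ) := by positivity
      exact this.ne h4
    field_simp
    push_cast
    linear_combination ((p : ℝ) + 1 + 2 * s) * (gg s (p + s) : ℝ) * h1'
  · intro x hx
    rw [mem_range] at hx
    rw [Nat.choose_eq_zero_of_lt (show t + e - (t + 1 + x) < e by omega)]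
    simp

end MP5cc280.Nm
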