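import Pool.Agent.H.MP_5cc280_co.Nm.Def

namespace MP5cc280.Nm

open Finset SimpleGraph

private theorem cq_map {V V' : Type*} [DecidableEq V] [DecidableEq V'] (G : SimpleGraph V)
    [DecidableRel G.Adj] (φ : V' ↪ V) (G' : SimpleGraph V') [DecidableRel G'.Adj]
    (h : ∀ x y, G'.Adj x y ↔ G.Adj (φ x) (φ y)) (k : ℕ) :
    ∀ T : Finset V', hh G k (T.map φ) = hh G' k T := by
  induction k with
  | zero => intro T; rfl
  | succ k ih =>
    intro T
    change ∑ x ∈ T.map φ, hh G k (nb G (T.map φ) x) = ∑ x ∈ T, hh G' k (nb G' T x)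
    rw [sum_map]
    refine sum_congr rfl fun x _ => ?_
    rw [← ih]
    congr 1
    ext y
    simp only [nb, mem_filter, mem_map]
    constructor
    · rintro ⟨⟨z, hz, rfl⟩, hy⟩
      exact ⟨z, ⟨hz, (h x z).2 hy⟩, rfl⟩
    · rintro ⟨z, ⟨hz, hz2⟩, rfl⟩
      exact ⟨⟨z, hz, rfl⟩, (h x z).1 hz2⟩

private theorem cq_nb {V : Type} [Fintype V] [DecidableEq V] (G : SimpleGraph V)
    [DecidableRel G.Adj] (v : V) (k : ℕ) :
    hh G k (nb G univ v) = hh (G.induce {x | G.Adj v x}) k univ := by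
  rw [← cq_map G (Function.Embedding.subtype (fun x => x ∈ {x | G.Adj v x}))
    (G.induce {x | G.Adj v x}) (fun x y => Iff.rfl) k univ]
  congr 1
  ext y
  simp [nb]

private theorem cq_univ (k : ℕ) : ∀ (V : Type) [Fintype V] [DecidableEq V] (G : SimpleGraph V)
    [DecidableRel G.Adj], hh G k univ = k.factorial * kk G k := by
  induction k with
  | zero =>
    intro V _ _ G _
    rw [kk_zero]
    rfl
  | succ k ih =>
    intro V _ _ G _
    change ∑ x, hh G k (nb G univ x) = _
    rw [sum_congr rfl (fun x _ => (cq_nb G x k).trans (ih _ _)), ← mul_sum, sum_kk_induce,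
      Nat.factorial_succ]
    ring

variable {V : Type} [Fintype V] [DecidableEq V] (G : SimpleGraph V) [DecidableRel G.Adj]

theorem hh_univ (k : ℕ) : hh G k univ = k.factorial * kk G k := cq_univ k V G

/-- in a neighbourhood in a `K_(r+2)`-free graph of maximum degree at most `Δ` -/
theorem hh_nb_le {r Δ : ℕ} (hf : G.CliqueFree (r + 2)) (hΔ : ∀ v, G.degree v ≤ Δ) (k : ℕ)
    (v : V) : hh G k (nb G univ v) * r ^ k ≤ r.descFactorial k * Δ ^ k := by
  rw [cq_nb G v k, cq_univ k]
  have h := chain (cliqueFree_induce hf v) 0 k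
  rw [Nat.zero_add, Nat.choose_zero_right, kk_zero, Nat.mul_one, Nat.mul_one] at h
  have h2 : Fintype.card {x // x ∈ {x | G.Adj v x}} ≤ Δ := by
    refine le_trans (le_of_eq ?_) (hΔ v)
    rw [← card_neighborSet_eq_degree]
    exact Fintype.card_congr (Equiv.refl _)
  rw [Nat.descFactorial_eq_factorial_mul_choose]
  calc k.factorial * kk (G.induce {x | G.Adj v x}) k * r ^ k
      = k.factorial * (kk (G.induce {x | G.Adj v x}) k * r ^ k) := by ring
    _ ≤ k.factorial * (r.choose k * Fintype.card {x // x ∈ {x | G.Adj v x}} ^ k) :=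
        Nat.mul_le_mul_left _ h
    _ ≤ k.factorial * (r.choose k * Δ ^ k) := by gcongr
    _ = _ := by ring

end MP5cc280.Nm
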