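import Pool.Agent.H.MP_5cc280_co.Nm.Def

namespace MP5cc280.Nm

open Finset SimpleGraph

variable {V : Type*} [DecidableEq V] (G : SimpleGraph V) [DecidableRel G.Adj]

theorem nb_comm (S : Finset V) (x y : V) : nb G (nb G S x) y = nb G (nb G S y) x := by
  ext z
  simp only [nb, mem_filter]
  tauto

private theorem cm_left (f e : ℕ) (S : Finset V) (z : V) :
    ∑ x ∈ nb G S z, ∑ y ∈ nn G (nb G S z) x, ee G f e (nb G (nb G (nb G S z) x) y) =
      ∑ x ∈ S, ∑ y ∈ S, if G.Adj x z ∧ G.Adj y z ∧ ¬ G.Adj x y then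
        ee G f e (nb G (nb G (nb G S x) y) z) else 0 := by
  rw [show nb G S z = S.filter (fun y => G.Adj z y) from rfl, sum_filter]
  refine sum_congr rfl fun x _ => ?_
  by_cases h : G.Adj z x
  · rw [if_pos h]
    rw [show nn G (S.filter (fun y => G.Adj z y)) x =
      (S.filter (fun y => G.Adj z y)).filter (fun y => ¬ G.Adj x y) from rfl, sum_filter, sum_filter]
    refine sum_congr rfl fun y _ => ?_
    by_cases h1 : G.Adj z y
    · by_cases h2 : G.Adj x y
      · rw [if_pos h1, if_neg (not_not.2 h2), if_neg (fun h3 => h3.2.2 h2)]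
      · rw [if_pos h1, if_pos h2, if_pos ⟨h.symm, h1.symm, h2⟩]
        have h3 : nb G (nb G (S.filter (fun y => G.Adj z y)) x) y = nb G (nb G (nb G S x) y) z := by
          rw [show S.filter (fun y => G.Adj z y) = nb G S z from rfl, nb_comm G S z x,
            nb_comm G (nb G S x) z y]
        rw [h3]
    · rw [if_neg h1, if_neg (fun h3 => h1 h3.2.1.symm)]
  · rw [if_neg h]
    symm
    refine sum_eq_zero fun y _ => ?_
    rw [if_neg (fun h3 => h h3.1.symm)]

private theorem cm_right (f e : ℕ) (S : Finset V) (x : V) :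
    ∑ y ∈ nn G S x, ∑ z ∈ nb G (nb G S x) y, ee G f e (nb G (nb G (nb G S x) y) z) =
      ∑ y ∈ S, ∑ z ∈ S, if G.Adj x z ∧ G.Adj y z ∧ ¬ G.Adj x y then
        ee G f e (nb G (nb G (nb G S x) y) z) else 0 := by
  rw [show nn G S x = S.filter (fun y => ¬ G.Adj x y) from rfl, sum_filter]
  refine sum_congr rfl fun y _ => ?_
  by_cases h : G.Adj x y
  · rw [if_neg (not_not.2 h)]
    symm
    refine sum_eq_zero fun z _ => ?_
    rw [if_neg (fun h3 => h3.2.2 h)]
  · rw [if_pos h]
    have h4 : ∀ F : V → ℕ, ∑ z ∈ nb G (nb G S x) y, F z =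
        ∑ z ∈ S, if G.Adj x z ∧ G.Adj y z ∧ ¬ G.Adj x y then F z else 0 := by
      intro F
      rw [show nb G (nb G S x) y = (S.filter (fun z => G.Adj x z)).filter (fun z => G.Adj y z)
        from rfl, sum_filter, sum_filter]
      refine sum_congr rfl fun z _ => ?_
      by_cases h1 : G.Adj x z
      · by_cases h2 : G.Adj y z
        · rw [if_pos h1, if_pos h2, if_pos ⟨h1, h2, h⟩]
        · rw [if_pos h1, if_neg h2, if_neg (fun h3 => h2 h3.2.1)]
      · rw [if_neg h1, if_neg (fun h3 => h1 h3.1)]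
    exact h4 _

theorem sum_ee (f e : ℕ) (S : Finset V) : ∑ x ∈ S, ee G f e (nb G S x) = ee G (f + 1) e S := by
  induction e generalizing S with
  | zero => rfl
  | succ e ih =>
    calc ∑ z ∈ S, ee G f (e + 1) (nb G S z)
        = ∑ z ∈ S, ∑ x ∈ nb G S z, ∑ y ∈ nn G (nb G S z) x,
            ee G f e (nb G (nb G (nb G S z) x) y) := rfl
      _ = ∑ z ∈ S, ∑ x ∈ S, ∑ y ∈ S, (if G.Adj x z ∧ G.Adj y z ∧ ¬ G.Adj x y then
            ee G f e (nb G (nb G (nb G S x) y) z) else 0) :=
          sum_congr rfl fun z _ => cm_left G f e S z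
      _ = ∑ x ∈ S, ∑ z ∈ S, ∑ y ∈ S, (if G.Adj x z ∧ G.Adj y z ∧ ¬ G.Adj x y then
            ee G f e (nb G (nb G (nb G S x) y) z) else 0) := sum_comm
      _ = ∑ x ∈ S, ∑ y ∈ S, ∑ z ∈ S, (if G.Adj x z ∧ G.Adj y z ∧ ¬ G.Adj x y then
            ee G f e (nb G (nb G (nb G S x) y) z) else 0) :=
          sum_congr rfl fun x _ => sum_comm
      _ = ∑ x ∈ S, ∑ y ∈ nn G S x, ∑ z ∈ nb G (nb G S x) y,
            ee G f e (nb G (nb G (nb G S x) y) z) :=
          sum_congr rfl fun x _ => (cm_right G f e S x).symm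
      _ = ∑ x ∈ S, ∑ y ∈ nn G S x, ee G (f + 1) e (nb G (nb G S x) y) :=
          sum_congr rfl fun x _ => sum_congr rfl fun y _ => ih _
      _ = ee G (f + 1) (e + 1) S := rfl

private theorem cm_split (f t : ℕ) (S : Finset V) :
    ∑ x ∈ S, ∑ y ∈ S, ee G f t (nb G (nb G S x) y) = ee G (f + 2) t S + ee G f (t + 1) S := by
  have h1 : ∀ x, ∑ y ∈ S, ee G f t (nb G (nb G S x) y) =
      ∑ y ∈ nb G S x, ee G f t (nb G (nb G S x) y) +
        ∑ y ∈ nn G S x, ee G f t (nb G (nb G S x) y) := fun x =>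
    (sum_filter_add_sum_filter_not S (fun y => G.Adj x y) _).symm
  rw [sum_congr rfl fun x _ => h1 x, sum_add_distrib]
  congr 1
  rw [sum_congr rfl fun x _ => sum_ee G f t (nb G S x)]
  exact sum_ee G (f + 1) t S

private theorem cm_pascal (a : ℕ → ℕ) (j : ℕ) :
    ∑ t ∈ range (j + 1), j.choose t * (a t + a (t + 1)) =
      ∑ t ∈ range (j + 2), (j + 1).choose t * a t := by
  rw [sum_range_succ' (fun t => (j + 1).choose t * a t) (j + 1)]
  have h1 : ∑ t ∈ range (j + 1), (j + 1).choose (t + 1) * a (t + 1) =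
      ∑ t ∈ range (j + 1), j.choose t * a (t + 1) +
        ∑ t ∈ range (j + 1), j.choose (t + 1) * a (t + 1) := by
    rw [← sum_add_distrib]
    refine sum_congr rfl fun t _ => ?_
    rw [Nat.choose_succ_succ, add_mul]
  have h2 : ∑ t ∈ range (j + 1), j.choose (t + 1) * a (t + 1) + (j + 1).choose 0 * a 0 =
      ∑ t ∈ range (j + 1), j.choose t * a t := by
    have h3 := sum_range_succ' (fun t => j.choose t * a t) (j + 1)
    have h4 := sum_range_succ (fun t => j.choose t * a t) (j + 1)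
    rw [Nat.choose_succ_self, zero_mul, add_zero] at h4
    rw [← h4, h3, Nat.choose_zero_right, Nat.choose_zero_right]
  rw [h1, add_assoc, h2, ← sum_add_distrib]
  refine sum_congr rfl fun t _ => ?_
  rw [mul_add, add_comm]

theorem zz_eq (q j : ℕ) (S : Finset V) :
    zz G q j S = ∑ t ∈ range (j + 1), j.choose t * ee G (q + 2 * (j - t)) t S := by
  induction j generalizing S with
  | zero =>
    rw [sum_range_one]
    simp only [Nat.choose_self, one_mul, Nat.sub_self, mul_zero, add_zero]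
    rfl
  | succ j ih =>
    calc zz G q (j + 1) S = ∑ x ∈ S, ∑ y ∈ S, zz G q j (nb G (nb G S x) y) := rfl
      _ = ∑ x ∈ S, ∑ y ∈ S, ∑ t ∈ range (j + 1),
            j.choose t * ee G (q + 2 * (j - t)) t (nb G (nb G S x) y) :=
          sum_congr rfl fun x _ => sum_congr rfl fun y _ => ih _
      _ = ∑ x ∈ S, ∑ t ∈ range (j + 1), ∑ y ∈ S,
            j.choose t * ee G (q + 2 * (j - t)) t (nb G (nb G S x) y) :=
          sum_congr rfl fun x _ => sum_comm
      _ = ∑ t ∈ range (j + 1), ∑ x ∈ S, ∑ y ∈ S,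
            j.choose t * ee G (q + 2 * (j - t)) t (nb G (nb G S x) y) := sum_comm
      _ = ∑ t ∈ range (j + 1), j.choose t *
            (ee G (q + 2 * (j + 1 - t)) t S + ee G (q + 2 * (j + 1 - (t + 1))) (t + 1) S) := by
          refine sum_congr rfl fun t ht => ?_
          have ht' : t ≤ j := Nat.lt_succ_iff.1 (mem_range.1 ht)
          have h1 : q + 2 * (j + 1 - t) = q + 2 * (j - t) + 2 := by omega
          have h2 : q + 2 * (j + 1 - (t + 1)) = q + 2 * (j - t) := by omega
          rw [h1, h2, ← cm_split, mul_sum]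
          exact sum_congr rfl fun x _ => (mul_sum _ _ _).symm
      _ = ∑ t ∈ range (j + 1 + 1), (j + 1).choose t * ee G (q + 2 * (j + 1 - t)) t S :=
          cm_pascal (fun t => ee G (q + 2 * (j + 1 - t)) t S) j

end MP5cc280.Nm
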