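import Pool.Agent.H.MP_5cc280_co.Nm.Com
import Pool.Agent.H.MP_5cc280_co.Nm.Al

namespace MP5cc280.Nm

open Finset SimpleGraph

private theorem cp_nb {V : Type*} [DecidableEq V] [DecidableRel (⊤ : SimpleGraph V).Adj]
    (S : Finset V) (x : V) : nb (⊤ : SimpleGraph V) S x = S.erase x := by
  ext y
  simp only [nb, mem_filter, mem_erase, top_adj]
  constructor
  · rintro ⟨h1, h2⟩
    exact ⟨h2.symm, h1⟩
  · rintro ⟨h1, h2⟩
    exact ⟨h2, h1.symm⟩

private theorem cp_nn {V : Type*} [DecidableEq V] [DecidableRel (⊤ : SimpleGraph V).Adj]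
    (S : Finset V) (x : V) (hx : x ∈ S) : nn (⊤ : SimpleGraph V) S x = {x} := by
  ext y
  simp only [nn, mem_filter, mem_singleton, top_adj, not_not]
  constructor
  · rintro ⟨_, h2⟩
    exact h2.symm
  · rintro rfl
    exact ⟨hx, rfl⟩

private theorem cp_sum {V : Type*} [DecidableEq V] (S : Finset V) (k : ℕ) :
    ∑ x ∈ S, (S.erase x).card.descFactorial k = S.card.descFactorial (k + 1) := by
  have h1 : ∑ x ∈ S, (S.erase x).card.descFactorial k = ∑ x ∈ S, (S.card - 1).descFactorial k := by
    refine sum_congr rfl fun x hx => ?_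
    rw [card_erase_of_mem hx]
  rw [h1, sum_const, smul_eq_mul]
  rcases Nat.eq_zero_or_pos S.card with h0 | hpos
  · rw [h0, zero_mul, Nat.zero_descFactorial_succ]
  · obtain ⟨c, hc⟩ : ∃ c, S.card = c + 1 := ⟨S.card - 1, by omega⟩
    rw [hc, Nat.add_sub_cancel, Nat.succ_descFactorial_succ]

private theorem cp_hh {V : Type*} [DecidableEq V] [DecidableRel (⊤ : SimpleGraph V).Adj] (k : ℕ) :
    ∀ S : Finset V, hh (⊤ : SimpleGraph V) k S = S.card.descFactorial k := by
  induction k with
  | zero =>
    intro S
    rw [Nat.descFactorial_zero]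
    rfl
  | succ k ih =>
    intro S
    rw [← cp_sum]
    change ∑ x ∈ S, hh (⊤ : SimpleGraph V) k (nb (⊤ : SimpleGraph V) S x) = _
    refine sum_congr rfl fun x _ => ?_
    rw [cp_nb, ih]

theorem ee_top {V : Type*} [DecidableEq V] [DecidableRel (⊤ : SimpleGraph V).Adj] (f e : ℕ)
    (S : Finset V) : ee (⊤ : SimpleGraph V) f e S = S.card.descFactorial (e + f) := by
  induction e generalizing S with
  | zero =>
    rw [zero_add]
    exact cp_hh f S
  | succ e ih =>
    rw [Nat.add_right_comm, ← cp_sum]
    change ∑ x ∈ S, ∑ y ∈ nn (⊤ : SimpleGraph V) S x,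
      ee (⊤ : SimpleGraph V) f e (nb (⊤ : SimpleGraph V) (nb (⊤ : SimpleGraph V) S x) y) = _
    refine sum_congr rfl fun x hx => ?_
    rw [cp_nn S x hx, sum_singleton, cp_nb, cp_nb, ih, erase_eq_of_notMem (notMem_erase x S)]

private theorem cp_step (n i m : ℕ) (h : i ≤ n) :
    m.descFactorial n * (m - i) = m.descFactorial (n + 1) + (n - i) * m.descFactorial n := by
  rw [Nat.descFactorial_succ]
  rcases Nat.lt_or_ge m n with h1 | h1
  · rw [Nat.descFactorial_of_lt h1]
    simp
  · have h2 : m - i = (m - n) + (n - i) := by omega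
    rw [h2]
    ring

theorem desc_prod (i k m : ℕ) (h : i ≤ k) :
    ∑ t ∈ range (i + 1), i.choose t * k.descFactorial t * m.descFactorial (i + k - t) =
      m.descFactorial i * m.descFactorial k := by
  induction i with
  | zero => simp
  | succ i ih =>
    have ih' := ih (by omega)
    have h1 : m.descFactorial (i + 1) * m.descFactorial k =
        (m.descFactorial i * m.descFactorial k) * (m - i) := by
      rw [Nat.descFactorial_succ]
      ring
    have h2 : ∀ t ∈ range (i + 1),
        i.choose t * k.descFactorial t * m.descFactorial (i + k - t) * (m - i) =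
        i.choose t * k.descFactorial t * m.descFactorial (i + 1 + k - t) +
          i.choose t * k.descFactorial (t + 1) * m.descFactorial (i + k - t) := by
      intro t ht
      rw [mem_range] at ht
      have e1 : i + 1 + k - t = (i + k - t) + 1 := by omega
      have e2 : i + k - t - i = k - t := by omega
      have h3 := cp_step (i + k - t) i m (by omega)
      rw [e2] at h3
      rw [mul_assoc (i.choose t * k.descFactorial t), h3, e1, Nat.descFactorial_succ k t]
      ring
    have h4 : ∑ t ∈ range (i + 1 + 1),
        i.choose t * k.descFactorial t * m.descFactorial (i + 1 + k - t) =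
        ∑ t ∈ range (i + 1),
        i.choose t * k.descFactorial t * m.descFactorial (i + 1 + k - t) := by
      rw [sum_range_succ _ (i + 1), Nat.choose_succ_self]
      simp
    have h5 : ∑ t ∈ range (i + 1 + 1),
        i.choose t * k.descFactorial t * m.descFactorial (i + 1 + k - t) =
        ∑ t ∈ range (i + 1),
        i.choose (t + 1) * k.descFactorial (t + 1) * m.descFactorial (i + 1 + k - (t + 1)) +
          i.choose 0 * k.descFactorial 0 * m.descFactorial (i + 1 + k - 0) :=
      sum_range_succ' _ (i + 1)
    rw [h1, ← ih', sum_mul, sum_congr rfl h2, sum_add_distrib, ← h4, h5, sum_range_succ' _ (i + 1)]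
    have h6 : ∀ t ∈ range (i + 1), (i + 1).choose (t + 1) * k.descFactorial (t + 1) *
        m.descFactorial (i + 1 + k - (t + 1)) =
        i.choose (t + 1) * k.descFactorial (t + 1) * m.descFactorial (i + 1 + k - (t + 1)) +
          i.choose t * k.descFactorial (t + 1) * m.descFactorial (i + k - t) := by
      intro t _
      have e1 : i + 1 + k - (t + 1) = i + k - t := by omega
      rw [Nat.choose_succ_succ, e1]
      ring
    rw [sum_congr rfl h6, sum_add_distrib, Nat.choose_zero_right, Nat.choose_zero_right]
    ring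

theorem zz_top {V : Type*} [DecidableEq V] [DecidableRel (⊤ : SimpleGraph V).Adj] (q j : ℕ)
    (hq : 1 ≤ q) (S : Finset V) :
    (zz (⊤ : SimpleGraph V) q j S : ℝ) = ∑ s ∈ range (j + 1), be q j s *
      ((S.card.descFactorial (j - s) : ℝ) * (S.card.descFactorial (q + j + s) : ℝ)) := by
  have h1 : (zz (⊤ : SimpleGraph V) q j S : ℝ) = ∑ t ∈ range (j + 1),
      (j.choose t : ℝ) * (S.card.descFactorial (q + 2 * j - t) : ℝ) := by
    rw [zz_eq, Nat.cast_sum]
    refine sum_congr rfl fun t ht => ?_
    rw [mem_range] at ht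
    rw [ee_top, Nat.cast_mul]
    have e : t + (q + 2 * (j - t)) = q + 2 * j - t := by omega
    rw [e]
  have h2 : ∀ s ∈ range (j + 1), be q j s *
      ((S.card.descFactorial (j - s) : ℝ) * (S.card.descFactorial (q + j + s) : ℝ)) =
      ∑ t ∈ range (j + 1), be q j s * (((j - s).choose t : ℝ) *
        ((q + j + s).descFactorial t : ℝ)) * (S.card.descFactorial (q + 2 * j - t) : ℝ) := by
    intro s hs
    rw [mem_range] at hs
    have h3 := desc_prod (j - s) (q + j + s) S.card (by omega)
    have h4 : ∑ t ∈ range (j - s + 1), (j - s).choose t * (q + j + s).descFactorial t *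
        S.card.descFactorial (j - s + (q + j + s) - t) =
        ∑ t ∈ range (j + 1), (j - s).choose t * (q + j + s).descFactorial t *
        S.card.descFactorial (j - s + (q + j + s) - t) := by
      refine sum_subset (range_mono (by omega)) fun t _ ht => ?_
      rw [mem_range, not_lt] at ht
      rw [Nat.choose_eq_zero_of_lt (by omega), zero_mul, zero_mul]
    rw [← Nat.cast_mul, ← h3, h4, Nat.cast_sum, mul_sum]
    refine sum_congr rfl fun t _ => ?_
    have e : j - s + (q + j + s) - t = q + 2 * j - t := by omega
    rw [e]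
    push_cast
    ring
  rw [h1, sum_congr rfl h2, sum_comm]
  refine sum_congr rfl fun t ht => ?_
  rw [mem_range] at ht
  rw [← sum_mul, be_sum q j t hq (by omega)]

end MP5cc280.Nm
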