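import Pool.Agent.H.MP_5cc280_co.Tur

/-!
# Ordered cliques, and ordered cliques with some pairs of non-adjacent vertices
-/

namespace MP5cc280.Nm

open Finset SimpleGraph

section

variable {V : Type*} [DecidableEq V] (G : SimpleGraph V) [DecidableRel G.Adj]

/-- the neighbours of `x` in `S` -/
def nb (S : Finset V) (x : V) : Finset V := S.filter (fun y => G.Adj x y)

/-- the non-neighbours of `x` in `S` (with `x` itself) -/
def nn (S : Finset V) (x : V) : Finset V := S.filter (fun y => ¬ G.Adj x y)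

/-- the number of ordered `k`-cliques in `S` -/
def hh : ℕ → Finset V → ℕ
  | 0, _ => 1
  | k + 1, S => ∑ x ∈ S, hh k (nb G S x)

/-- the number of tuples of `e` pairs of non-adjacent vertices and `f` vertices of `S`, all other
pairs being adjacent -/
def ee (f : ℕ) : ℕ → Finset V → ℕ
  | 0, S => hh G f S
  | e + 1, S => ∑ x ∈ S, ∑ y ∈ nn G S x, ee f e (nb G (nb G S x) y)

/-- the same with `j` arbitrary pairs -/
def zz (q : ℕ) : ℕ → Finset V → ℕ
  | 0, S => hh G q S
  | j + 1, S => ∑ x ∈ S, ∑ y ∈ S, zz q j (nb G (nb G S x) y)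

end

/-- the differences of the factorial: `gg s n = ∑ l, (-1)^(s-l) (s choose l) (n+l)!` -/
def gg : ℕ → ℕ → ℕ
  | 0, n => n.factorial
  | 1, n => n * n.factorial
  | s + 2, n => n * gg (s + 1) n + (s + 1) * gg s (n + 1)

/-- the coefficients -/
noncomputable def be (q j s : ℕ) : ℝ :=
  (j.choose s : ℝ) * ((q : ℝ) + 2 * s) * (gg s (q + s - 1) : ℝ) / ((q + j + s).factorial : ℝ)

theorem be_nonneg (q j s : ℕ) : 0 ≤ be q j s := by
  unfold be
  positivity

/-- every vertex has at most one non-neighbour -/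
def Mt {ι : Type*} (Hp : SimpleGraph ι) : Prop :=
  ∀ a b c, b ≠ a → c ≠ a → ¬ Hp.Adj a b → ¬ Hp.Adj a c → b = c

end MP5cc280.Nm
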