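import Pool.Agent.H.MP_5cc280_co.Nm.Def

namespace MP5cc280.Nm

open Finset SimpleGraph

/-- removal of a vertex which is adjacent to all others -/
private theorem ho_one {ι V : Type} [Fintype ι] [DecidableEq ι] [Fintype V] [DecidableEq V]
    (Hp : SimpleGraph ι) (G : SimpleGraph V) [DecidableRel G.Adj] (S : Finset V) (a : ι)
    (ha : ∀ b, b ≠ a → Hp.Adj a b) :
    Nat.card (HomsIn Hp G S) = ∑ x ∈ S,
      Nat.card (HomsIn (Hp.comap (Subtype.val : {c // c ≠ a} → ι)) G (nb G S x)) := by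
  classical
  let F : HomsIn Hp G S → Σ x : {x // x ∈ S},
      HomsIn (Hp.comap (Subtype.val : {c // c ≠ a} → ι)) G (nb G S x.1) := fun f =>
    ⟨⟨f.1 a, f.2.1 a⟩, ⟨fun c => f.1 c.1,
      fun c => mem_filter.2 ⟨f.2.1 c, f.2.2 a c (ha c.1 c.2)⟩, fun c d h => f.2.2 c.1 d.1 h⟩⟩
  have key : ∀ (x1 x2 : V) (h1 : x1 ∈ S) (h2 : x2 ∈ S) (g1 g2 : {c // c ≠ a} → V)
      (p1 : (∀ i, g1 i ∈ nb G S x1) ∧
        ∀ c d, (Hp.comap (Subtype.val : {c // c ≠ a} → ι)).Adj c d → G.Adj (g1 c) (g1 d))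
      (p2 : (∀ i, g2 i ∈ nb G S x2) ∧
        ∀ c d, (Hp.comap (Subtype.val : {c // c ≠ a} → ι)).Adj c d → G.Adj (g2 c) (g2 d)),
      x1 = x2 → g1 = g2 → (⟨⟨x1, h1⟩, ⟨g1, p1⟩⟩ : Σ x : {x // x ∈ S},
        HomsIn (Hp.comap (Subtype.val : {c // c ≠ a} → ι)) G (nb G S x.1)) =
        ⟨⟨x2, h2⟩, ⟨g2, p2⟩⟩ := by
    rintro x1 x2 h1 h2 g1 g2 p1 p2 rfl rfl
    rfl
  have hF : Function.Bijective F := by
    constructor
    · intro f g hfg
      have h1 : f.1 a = g.1 a := congrArg (fun z : Σ x : {x // x ∈ S},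
        HomsIn (Hp.comap (Subtype.val : {c // c ≠ a} → ι)) G (nb G S x.1) => (z.1.1 : V)) hfg
      have h2 : (fun c : {c // c ≠ a} => f.1 c.1) = fun c => g.1 c.1 :=
        congrArg (fun z : Σ x : {x // x ∈ S},
        HomsIn (Hp.comap (Subtype.val : {c // c ≠ a} → ι)) G (nb G S x.1) => z.2.1) hfg
      apply Subtype.ext
      funext i
      by_cases hi : i = a
      · rw [hi]
        exact h1
      · exact congrFun h2 ⟨i, hi⟩
    · rintro ⟨⟨x, hx⟩, ⟨g, hg1, hg2⟩⟩
      let f : ι → V := fun i => if h : i = a then x else g ⟨i, h⟩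
      have fa : f a = x := dif_pos rfl
      have fc : ∀ c (h : c ≠ a), f c = g ⟨c, h⟩ := fun c h => dif_neg h
      have hfS : ∀ i, f i ∈ S := by
        intro i
        by_cases hi : i = a
        · rw [hi, fa]
          exact hx
        · rw [fc i hi]
          exact (mem_filter.1 (hg1 ⟨i, hi⟩)).1
      have hfG : ∀ i j, Hp.Adj i j → G.Adj (f i) (f j) := by
        intro i j hij
        by_cases hi : i = a
        · have hj : j ≠ a := fun h => Hp.irrefl (by rw [hi, h] at hij; exact hij)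
          rw [hi, fa, fc j hj]
          exact (mem_filter.1 (hg1 ⟨j, hj⟩)).2
        · by_cases hj : j = a
          · rw [hj, fa, fc i hi]
            exact ((mem_filter.1 (hg1 ⟨i, hi⟩)).2).symm
          · rw [fc i hi, fc j hj]
            exact hg2 _ _ hij
      refine ⟨⟨f, hfS, hfG⟩, ?_⟩
      exact key _ _ _ _ _ _ _ _ fa (funext fun c => fc c.1 c.2)
  rw [Nat.card_congr (Equiv.ofBijective F hF), Nat.card_sigma]
  exact sum_coe_sort S fun x =>
    Nat.card (HomsIn (Hp.comap (Subtype.val : {c // c ≠ a} → ι)) G (nb G S x))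

/-- removal of two vertices which are adjacent to all others, but not to each other -/
private theorem ho_two {ι V : Type} [Fintype ι] [DecidableEq ι] [Fintype V] [DecidableEq V]
    (Hp : SimpleGraph ι) (G : SimpleGraph V) [DecidableRel G.Adj] (S : Finset V) {a b : ι}
    (hab : a ≠ b) (hn : ¬ Hp.Adj a b) (ha : ∀ c, c ≠ a → c ≠ b → Hp.Adj a c)
    (hb : ∀ c, c ≠ a → c ≠ b → Hp.Adj b c) :
    Nat.card (HomsIn Hp G S) = ∑ x ∈ S, ∑ y ∈ S,
      Nat.card (HomsIn (Hp.comap (Subtype.val : {c // c ≠ a ∧ c ≠ b} → ι)) G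
        (nb G (nb G S x) y)) := by
  classical
  let F : HomsIn Hp G S → Σ x : {x // x ∈ S} × {x // x ∈ S},
      HomsIn (Hp.comap (Subtype.val : {c // c ≠ a ∧ c ≠ b} → ι)) G
        (nb G (nb G S x.1.1) x.2.1) := fun f =>
    ⟨(⟨f.1 a, f.2.1 a⟩, ⟨f.1 b, f.2.1 b⟩), ⟨fun c => f.1 c.1,
      fun c => mem_filter.2 ⟨mem_filter.2 ⟨f.2.1 c, f.2.2 a c (ha c.1 c.2.1 c.2.2)⟩,
        f.2.2 b c (hb c.1 c.2.1 c.2.2)⟩, fun c d h => f.2.2 c.1 d.1 h⟩⟩
  have key : ∀ (x1 x2 y1 y2 : V) (h1 : x1 ∈ S) (h2 : x2 ∈ S) (k1 : y1 ∈ S) (k2 : y2 ∈ S)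
      (g1 g2 : {c // c ≠ a ∧ c ≠ b} → V)
      (p1 : (∀ i, g1 i ∈ nb G (nb G S x1) y1) ∧
        ∀ c d, (Hp.comap (Subtype.val : {c // c ≠ a ∧ c ≠ b} → ι)).Adj c d → G.Adj (g1 c) (g1 d))
      (p2 : (∀ i, g2 i ∈ nb G (nb G S x2) y2) ∧
        ∀ c d, (Hp.comap (Subtype.val : {c // c ≠ a ∧ c ≠ b} → ι)).Adj c d → G.Adj (g2 c) (g2 d)),
      x1 = x2 → y1 = y2 → g1 = g2 →
      (⟨(⟨x1, h1⟩, ⟨y1, k1⟩), ⟨g1, p1⟩⟩ : Σ x : {x // x ∈ S} × {x // x ∈ S},
        HomsIn (Hp.comap (Subtype.val : {c // c ≠ a ∧ c ≠ b} → ι)) G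
          (nb G (nb G S x.1.1) x.2.1)) = ⟨(⟨x2, h2⟩, ⟨y2, k2⟩), ⟨g2, p2⟩⟩ := by
    rintro x1 x2 y1 y2 h1 h2 k1 k2 g1 g2 p1 p2 rfl rfl rfl
    rfl
  have hF : Function.Bijective F := by
    constructor
    · intro f g hfg
      have h1 : f.1 a = g.1 a := congrArg (fun z : Σ x : {x // x ∈ S} × {x // x ∈ S},
        HomsIn (Hp.comap (Subtype.val : {c // c ≠ a ∧ c ≠ b} → ι)) G
          (nb G (nb G S x.1.1) x.2.1) => (z.1.1.1 : V)) hfg
      have h3 : f.1 b = g.1 b := congrArg (fun z : Σ x : {x // x ∈ S} × {x // x ∈ S},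
        HomsIn (Hp.comap (Subtype.val : {c // c ≠ a ∧ c ≠ b} → ι)) G
          (nb G (nb G S x.1.1) x.2.1) => (z.1.2.1 : V)) hfg
      have h2 : (fun c : {c // c ≠ a ∧ c ≠ b} => f.1 c.1) = fun c => g.1 c.1 :=
        congrArg (fun z : Σ x : {x // x ∈ S} × {x // x ∈ S},
        HomsIn (Hp.comap (Subtype.val : {c // c ≠ a ∧ c ≠ b} → ι)) G
          (nb G (nb G S x.1.1) x.2.1) => z.2.1) hfg
      apply Subtype.ext
      funext i
      by_cases hi : i = a
      · rw [hi]
        exact h1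
      · by_cases hi2 : i = b
        · rw [hi2]
          exact h3
        · exact congrFun h2 ⟨i, hi, hi2⟩
    · rintro ⟨⟨⟨x, hx⟩, ⟨y, hy⟩⟩, ⟨g, hg1, hg2⟩⟩
      have hba : b ≠ a := hab.symm
      let f : ι → V := fun i => if h : i ≠ a ∧ i ≠ b then g ⟨i, h⟩ else if i = a then x else y
      have fa : f a = x := by
        show (if h : a ≠ a ∧ a ≠ b then g ⟨a, h⟩ else if a = a then x else y) = x
        rw [dif_neg (fun h => h.1 rfl), if_pos rfl]
      have fb : f b = y := by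
        show (if h : b ≠ a ∧ b ≠ b then g ⟨b, h⟩ else if b = a then x else y) = y
        rw [dif_neg (fun h => h.2 rfl), if_neg hba]
      have fc : ∀ c (h : c ≠ a ∧ c ≠ b), f c = g ⟨c, h⟩ := fun c h => dif_pos h
      have hcase : ∀ i, i = a ∨ i = b ∨ (i ≠ a ∧ i ≠ b) := by
        intro i
        by_cases hi : i = a
        · exact Or.inl hi
        · by_cases hi2 : i = b
          · exact Or.inr (Or.inl hi2)
          · exact Or.inr (Or.inr ⟨hi, hi2⟩)
      have m1 : ∀ c (h : c ≠ a ∧ c ≠ b), f c ∈ S ∧ G.Adj x (f c) ∧ G.Adj y (f c) := by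
        intro c h
        have h1 := mem_filter.1 (hg1 ⟨c, h⟩)
        have h2 := mem_filter.1 h1.1
        rw [fc c h]
        exact ⟨h2.1, h2.2, h1.2⟩
      have hfS : ∀ i, f i ∈ S := by
        intro i
        rcases hcase i with rfl | rfl | hi
        · rw [fa]
          exact hx
        · rw [fb]
          exact hy
        · exact (m1 i hi).1
      have hfG : ∀ i j, Hp.Adj i j → G.Adj (f i) (f j) := by
        intro i j hij
        rcases hcase i with hi | hi | hi
        · rw [hi, fa]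
          rw [hi] at hij
          rcases hcase j with hj | hj | hj
          · rw [hj] at hij
            exact absurd hij (Hp.irrefl)
          · rw [hj] at hij
            exact absurd hij hn
          · exact (m1 j hj).2.1
        · rw [hi, fb]
          rw [hi] at hij
          rcases hcase j with hj | hj | hj
          · rw [hj] at hij
            exact absurd hij.symm hn
          · rw [hj] at hij
            exact absurd hij (Hp.irrefl)
          · exact (m1 j hj).2.2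
        · rcases hcase j with hj | hj | hj
          · rw [hj, fa]
            exact ((m1 i hi).2.1).symm
          · rw [hj, fb]
            exact ((m1 i hi).2.2).symm
          · rw [fc i hi, fc j hj]
            exact hg2 _ _ hij
      refine ⟨⟨f, hfS, hfG⟩, ?_⟩
      exact key _ _ _ _ _ _ _ _ _ _ _ _ fa fb (funext fun c => fc c.1 c.2)
  rw [Nat.card_congr (Equiv.ofBijective F hF), Nat.card_sigma, Fintype.sum_prod_type]
  rw [← sum_coe_sort S fun x => ∑ y ∈ S, Nat.card (HomsIn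
    (Hp.comap (Subtype.val : {c // c ≠ a ∧ c ≠ b} → ι)) G (nb G (nb G S x) y))]
  refine sum_congr rfl fun x _ => ?_
  exact sum_coe_sort S fun y => Nat.card (HomsIn
    (Hp.comap (Subtype.val : {c // c ≠ a ∧ c ≠ b} → ι)) G (nb G (nb G S x) y))

private theorem ho_top (n : ℕ) : ∀ (ι : Type) [Fintype ι] [DecidableEq ι] (Hp : SimpleGraph ι),
    Fintype.card ι = n → (∀ a b, a ≠ b → Hp.Adj a b) →
      ∀ (V : Type) [Fintype V] [DecidableEq V] (G : SimpleGraph V) [DecidableRel G.Adj]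
        (S : Finset V), Nat.card (HomsIn Hp G S) = hh G n S := by
  induction n with
  | zero =>
    intro ι _ _ Hp hc hH V _ _ G _ S
    haveI : IsEmpty ι := Fintype.card_eq_zero_iff.1 hc
    haveI : Unique (HomsIn Hp G S) :=
      { default := ⟨fun i => isEmptyElim i, fun i => isEmptyElim i, fun i => isEmptyElim i⟩
        uniq := fun f => Subtype.ext (funext fun i => isEmptyElim i) }
    rw [Nat.card_unique]
    rfl
  | succ n ih =>
    intro ι _ _ Hp hc hH V _ _ G _ S
    obtain ⟨a⟩ : Nonempty ι := Fintype.card_pos_iff.1 (by omega)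
    have h1 : Fintype.card {c : ι // c ≠ a} = n := by
      rw [Fintype.card_subtype, filter_ne' univ a, card_erase_of_mem (mem_univ a), card_univ, hc]
      rfl
    rw [ho_one Hp G S a fun b hb => hH a b hb.symm]
    show _ = ∑ x ∈ S, hh G n (nb G S x)
    refine sum_congr rfl fun x _ => ?_
    exact ih {c : ι // c ≠ a} _ h1 (fun c d hcd => hH c.1 d.1 fun h => hcd (Subtype.ext h)) V G _

theorem hom_zz (n : ℕ) : ∀ (ι : Type) [Fintype ι] [DecidableEq ι] (Hp : SimpleGraph ι),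
    Fintype.card ι = n → Mt Hp → ∃ q j : ℕ, Fintype.card ι = q + 2 * j ∧
      (∀ D : Finset ι, (∀ v ∈ D, ∀ w, w ≠ v → Hp.Adj v w) → D.card ≤ q) ∧
      ∀ (V : Type) [Fintype V] [DecidableEq V] (G : SimpleGraph V) [DecidableRel G.Adj]
        (S : Finset V), Nat.card (HomsIn Hp G S) = zz G q j S := by
  induction n using Nat.strong_induction_on with
  | _ n ih =>
  intro ι _ _ Hp hc hM
  by_cases hex : ∃ a b, a ≠ b ∧ ¬ Hp.Adj a b
  · obtain ⟨a, b, hab, hn⟩ := hex
    have hc2 : Fintype.card {c : ι // c ≠ a ∧ c ≠ b} + 2 = n := by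
      have e1 : (univ.filter fun c : ι => c ≠ a ∧ c ≠ b) = univ \ {a, b} := by
        ext c
        simp
      have e2 : ({a, b} : Finset ι).card = 2 := card_pair hab
      have e3 : (univ \ {a, b} : Finset ι).card + ({a, b} : Finset ι).card = univ.card :=
        card_sdiff_add_card_eq_card (subset_univ _)
      rw [Fintype.card_subtype, e1]
      rw [e2, card_univ, hc] at e3
      exact e3
    have hM' : Mt (Hp.comap (Subtype.val : {c // c ≠ a ∧ c ≠ b} → ι)) := by
      intro u v w hv hw h1 h2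
      exact Subtype.ext (hM u.1 v.1 w.1 (fun h => hv (Subtype.ext h))
        (fun h => hw (Subtype.ext h)) h1 h2)
    obtain ⟨q, j, h1, h2, h3⟩ := ih (Fintype.card {c : ι // c ≠ a ∧ c ≠ b}) (by omega)
      {c : ι // c ≠ a ∧ c ≠ b} (Hp.comap (Subtype.val : {c // c ≠ a ∧ c ≠ b} → ι)) rfl hM'
    refine ⟨q, j + 1, by omega, ?_, ?_⟩
    · intro D hD
      have haD : a ∉ D := fun h => hn (hD a h b hab.symm)
      have hbD : b ∉ D := fun h => hn (hD b h a hab).symm
      have e1 : (D.subtype fun c => c ≠ a ∧ c ≠ b).card = D.card := by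
        rw [card_subtype, filter_true_of_mem]
        exact fun c hcD => ⟨fun h => haD (h ▸ hcD), fun h => hbD (h ▸ hcD)⟩
      rw [← e1]
      refine h2 _ fun v hv w hwv => ?_
      exact hD v.1 (mem_subtype.1 hv) w.1 fun h => hwv (Subtype.ext h)
    · intro V _ _ G _ S
      have ha : ∀ c, c ≠ a → c ≠ b → Hp.Adj a c := by
        intro c h4 h5
        by_contra h6
        exact h5 (hM a c b h4 hab.symm h6 hn)
      have hb : ∀ c, c ≠ a → c ≠ b → Hp.Adj b c := by
        intro c h4 h5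
        by_contra h6
        exact h4 (hM b c a h5 hab h6 fun h => hn h.symm)
      rw [ho_two Hp G S hab hn ha hb]
      show _ = ∑ x ∈ S, ∑ y ∈ S, zz G q j (nb G (nb G S x) y)
      exact sum_congr rfl fun x _ => sum_congr rfl fun y _ => h3 V G _
  · refine ⟨Fintype.card ι, 0, by omega, fun D _ => card_le_univ D, ?_⟩
    intro V _ _ G _ S
    show _ = hh G (Fintype.card ι) S
    refine ho_top _ ι Hp rfl (fun a b hab => ?_) V G S
    by_contra h
    exact hex ⟨a, b, hab, h⟩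

end MP5cc280.Nm
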