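import Pool.Agent.H.MP_5cc280_co.Nm.Com

namespace MP5cc280.Nm

open Finset SimpleGraph

variable {V : Type*} [DecidableEq V] (G : SimpleGraph V) [DecidableRel G.Adj]

private theorem in_nb_mono {S T : Finset V} (h : S ⊆ T) (x : V) : nb G S x ⊆ nb G T x :=
  filter_subset_filter _ h

private theorem in_nb_sub (S : Finset V) (x : V) : nb G S x ⊆ S := filter_subset _ _

private theorem in_sum_split (S : Finset V) (b : V) (F : V → ℕ) :
    ∑ x ∈ S, F x = ∑ x ∈ nb G S b, F x + ∑ x ∈ nn G S b, F x :=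
  (sum_filter_add_sum_filter_not S (fun y => G.Adj b y) F).symm

theorem hh_mono (k : ℕ) {S T : Finset V} (h : S ⊆ T) : hh G k S ≤ hh G k T := by
  induction k generalizing S T with
  | zero => exact le_rfl
  | succ k ih =>
    calc hh G (k + 1) S = ∑ x ∈ S, hh G k (nb G S x) := rfl
      _ ≤ ∑ x ∈ S, hh G k (nb G T x) := sum_le_sum fun x _ => ih (in_nb_mono G h x)
      _ ≤ ∑ x ∈ T, hh G k (nb G T x) := sum_le_sum_of_subset h

private theorem in_swap (k : ℕ) (S : Finset V) (b : V) :
    ∑ x ∈ nb G S b, ∑ r ∈ nn G (nb G S x) b, hh G k (nb G (nb G (nb G S x) b) r) =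
      ∑ r ∈ nn G S b, hh G (k + 1) (nb G (nb G S b) r) := by
  have h1 : ∑ x ∈ nb G S b, ∑ r ∈ nn G (nb G S x) b, hh G k (nb G (nb G (nb G S x) b) r) =
      ∑ r ∈ nn G S b, ∑ x ∈ nb G (nb G S b) r, hh G k (nb G (nb G (nb G S x) b) r) := by
    apply sum_comm'
    intro x r
    simp only [nb, nn, mem_filter]
    have : G.Adj x r ↔ G.Adj r x := G.adj_comm x r
    tauto
  rw [h1]
  refine sum_congr rfl fun r _ => ?_
  change _ = ∑ x ∈ nb G (nb G S b) r, hh G k (nb G (nb G (nb G S b) r) x)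
  refine sum_congr rfl fun x _ => ?_
  rw [nb_comm G S x b, nb_comm G (nb G S b) x r]

theorem hh_split (k : ℕ) (S : Finset V) (b : V) :
    hh G (k + 1) (nb G S b) + (k + 1) * ∑ r ∈ nn G S b, hh G k (nb G (nb G S b) r) ≤
      hh G (k + 1) S := by
  induction k generalizing S with
  | zero =>
    change ∑ x ∈ nb G S b, 1 + (0 + 1) * ∑ r ∈ nn G S b, 1 ≤ ∑ x ∈ S, 1
    rw [in_sum_split G S b (fun _ => 1), zero_add, one_mul]
  | succ k ih =>
    have h1 : ∑ x ∈ nb G S b, (hh G (k + 1) (nb G (nb G S x) b) +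
        (k + 1) * ∑ r ∈ nn G (nb G S x) b, hh G k (nb G (nb G (nb G S x) b) r)) ≤
        ∑ x ∈ nb G S b, hh G (k + 1) (nb G S x) := sum_le_sum fun x _ => ih (nb G S x)
    rw [sum_add_distrib, ← mul_sum, in_swap] at h1
    have h2 : ∑ x ∈ nb G S b, hh G (k + 1) (nb G (nb G S x) b) = hh G (k + 2) (nb G S b) := by
      change _ = ∑ x ∈ nb G S b, hh G (k + 1) (nb G (nb G S b) x)
      refine sum_congr rfl fun x _ => ?_
      rw [nb_comm]
    rw [h2] at h1
    have h3 : ∑ r ∈ nn G S b, hh G (k + 1) (nb G (nb G S b) r) ≤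
        ∑ r ∈ nn G S b, hh G (k + 1) (nb G S r) :=
      sum_le_sum fun r _ => hh_mono G _ (in_nb_mono G (in_nb_sub G S b) r)
    have h4 : hh G (k + 2) S = ∑ x ∈ nb G S b, hh G (k + 1) (nb G S x) +
        ∑ x ∈ nn G S b, hh G (k + 1) (nb G S x) :=
      in_sum_split G S b (fun x => hh G (k + 1) (nb G S x))
    have h5 : (k + 1 + 1) * ∑ r ∈ nn G S b, hh G (k + 1) (nb G (nb G S b) r) =
        (k + 1) * ∑ r ∈ nn G S b, hh G (k + 1) (nb G (nb G S b) r) +
          ∑ r ∈ nn G S b, hh G (k + 1) (nb G (nb G S b) r) := by ring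
    change hh G (k + 2) (nb G S b) + (k + 1 + 1) * ∑ r ∈ nn G S b,
      hh G (k + 1) (nb G (nb G S b) r) ≤ hh G (k + 2) S
    rw [h4, h5]
    omega

private theorem in_pascal (i : ℕ) (a : ℕ → ℕ) :
    ∑ t ∈ range (i + 2), (i + 1).choose t * a t =
      ∑ t ∈ range (i + 1), i.choose t * a t + ∑ t ∈ range (i + 1), i.choose t * a (t + 1) := by
  rw [sum_range_succ']
  have h1 : ∑ t ∈ range (i + 1), (i + 1).choose (t + 1) * a (t + 1) =
      ∑ t ∈ range (i + 1), i.choose t * a (t + 1) +
        ∑ t ∈ range (i + 1), i.choose (t + 1) * a (t + 1) := by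
    rw [← sum_add_distrib]
    refine sum_congr rfl fun t _ => ?_
    rw [Nat.choose_succ_succ, add_mul]
  have h2 : ∑ t ∈ range (i + 1), i.choose t * a t =
      ∑ t ∈ range (i + 1), i.choose (t + 1) * a (t + 1) + i.choose 0 * a 0 := by
    rw [← sum_range_succ' (fun t => i.choose t * a t) (i + 1), sum_range_succ (fun t =>
      i.choose t * a t) (i + 1), Nat.choose_succ_self, zero_mul, add_zero]
  rw [h1, h2, Nat.choose_zero_right, Nat.choose_zero_right]
  ring

theorem prod_ge (i k : ℕ) (h : i ≤ k) (S : Finset V) :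
    ∑ t ∈ range (i + 1), i.choose t * k.descFactorial t * ee G (i + k - 2 * t) t S ≤
      hh G i S * hh G k S := by
  induction i generalizing k S with
  | zero =>
    rw [zero_add, sum_range_one]
    simp only [Nat.choose_self, Nat.descFactorial_zero, mul_one, mul_zero, Nat.sub_zero, zero_add,
      one_mul]
    change hh G k S ≤ 1 * hh G k S
    rw [one_mul]
  | succ i ih =>
    obtain ⟨k, rfl⟩ : ∃ k', k = k' + 1 := ⟨k - 1, by omega⟩
    have hik : i ≤ k := by omega
    set a : ℕ → ℕ := fun t => (k + 1).descFactorial t * ee G (i + 1 + (k + 1) - 2 * t) t S with ha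
    have h0 : ∑ t ∈ range (i + 1 + 1), (i + 1).choose t * (k + 1).descFactorial t *
        ee G (i + 1 + (k + 1) - 2 * t) t S =
        ∑ t ∈ range (i + 1), i.choose t * a t + ∑ t ∈ range (i + 1), i.choose t * a (t + 1) := by
      rw [← in_pascal]
      refine sum_congr rfl fun t _ => ?_
      rw [ha, mul_assoc]
    rw [h0]
    have h1 : ∑ t ∈ range (i + 1), i.choose t * a t =
        ∑ b ∈ S, ∑ t ∈ range (i + 1), i.choose t * (k + 1).descFactorial t *
          ee G (i + (k + 1) - 2 * t) t (nb G S b) := by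
      rw [sum_comm]
      refine sum_congr rfl fun t ht => ?_
      rw [← mul_sum, sum_ee]
      have ht' : t ≤ i := Nat.lt_succ_iff.1 (mem_range.1 ht)
      have e : i + (k + 1) - 2 * t + 1 = i + 1 + (k + 1) - 2 * t := by omega
      rw [e, ha, mul_assoc]
    have h2 : ∑ t ∈ range (i + 1), i.choose t * a (t + 1) =
        ∑ b ∈ S, (k + 1) * ∑ r ∈ nn G S b, ∑ t ∈ range (i + 1), i.choose t *
          k.descFactorial t * ee G (i + k - 2 * t) t (nb G (nb G S b) r) := by
      have h3 : ∀ b, (k + 1) * ∑ r ∈ nn G S b, ∑ t ∈ range (i + 1), i.choose t *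
          k.descFactorial t * ee G (i + k - 2 * t) t (nb G (nb G S b) r) =
          ∑ t ∈ range (i + 1), (k + 1) * (i.choose t * k.descFactorial t *
            ∑ r ∈ nn G S b, ee G (i + k - 2 * t) t (nb G (nb G S b) r)) := by
        intro b
        rw [sum_comm, mul_sum]
        refine sum_congr rfl fun t _ => ?_
        rw [← mul_sum]
      simp only [h3]
      rw [sum_comm]
      refine sum_congr rfl fun t ht => ?_
      rw [← mul_sum, ← mul_sum]
      have e : i + 1 + (k + 1) - 2 * (t + 1) = i + k - 2 * t := by omega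
      have e2 : ee G (i + k - 2 * t) (t + 1) S =
        ∑ b ∈ S, ∑ r ∈ nn G S b, ee G (i + k - 2 * t) t (nb G (nb G S b) r) := rfl
      rw [← e2, ha]
      simp only
      rw [e, Nat.succ_descFactorial_succ]
      ring
    rw [h1, h2, ← sum_add_distrib]
    change _ ≤ (∑ b ∈ S, hh G i (nb G S b)) * hh G (k + 1) S
    rw [sum_mul]
    refine sum_le_sum fun b _ => ?_
    have h4 := ih (k + 1) (by omega) (nb G S b)
    have h5 : ∑ r ∈ nn G S b, ∑ t ∈ range (i + 1), i.choose t *
        k.descFactorial t * ee G (i + k - 2 * t) t (nb G (nb G S b) r) ≤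
        ∑ r ∈ nn G S b, hh G i (nb G S b) * hh G k (nb G (nb G S b) r) := by
      refine sum_le_sum fun r _ => ?_
      refine (ih k hik (nb G (nb G S b) r)).trans ?_
      exact Nat.mul_le_mul_right _ (hh_mono G i (in_nb_sub G _ r))
    rw [← mul_sum] at h5
    have h6 := Nat.mul_le_mul_left (hh G i (nb G S b)) (hh_split G k S b)
    refine le_trans ?_ h6
    rw [mul_add]
    refine add_le_add h4 ?_
    refine (Nat.mul_le_mul_left (k + 1) h5).trans (le_of_eq ?_)
    ring

end MP5cc280.Nm
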