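import Pool.Agent.H.MP_5cc280_co.Nm.Ine
import Pool.Agent.H.MP_5cc280_co.Nm.Cpl
import Pool.Agent.H.MP_5cc280_co.Nm.Hom
import Pool.Agent.H.MP_5cc280_co.Nm.Clq

namespace MP5cc280.Nm

open Finset SimpleGraph

section

variable {V : Type*} [DecidableEq V] (G : SimpleGraph V) [DecidableRel G.Adj]

private theorem up_prod (q j s : ℕ) (hs : s ≤ j) (S : Finset V) :
    ∑ t ∈ range (j + 1), (((j - s).choose t : ℝ) * ((q + j + s).descFactorial t : ℝ)) *
      (ee G (q + 2 * (j - t)) t S : ℝ) ≤ (hh G (j - s) S : ℝ) * (hh G (q + j + s) S : ℝ) := by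
  have h := prod_ge G (j - s) (q + j + s) (by omega) S
  have h1 : ∑ t ∈ range (j - s + 1), (j - s).choose t * (q + j + s).descFactorial t *
      ee G (j - s + (q + j + s) - 2 * t) t S =
      ∑ t ∈ range (j + 1), (j - s).choose t * (q + j + s).descFactorial t *
        ee G (q + 2 * (j - t)) t S := by
    rw [← Finset.sum_subset (s₁ := range (j - s + 1)) (s₂ := range (j + 1))]
    · refine sum_congr rfl fun t ht => ?_
      have ht' := mem_range.1 ht
      rw [show j - s + (q + j + s) - 2 * t = q + 2 * (j - t) by omega]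
    · intro t ht
      have ht' := mem_range.1 ht
      exact mem_range.2 (by omega)
    · intro t _ ht
      have ht' : j - s < t := by
        by_contra hc
        exact ht (mem_range.2 (by omega))
      rw [Nat.choose_eq_zero_of_lt ht']
      simp
  rw [h1] at h
  exact_mod_cast h

theorem zz_le (q j : ℕ) (hq : 1 ≤ q) (S : Finset V) :
    (zz G q j S : ℝ) ≤ ∑ s ∈ range (j + 1), be q j s *
      ((hh G (j - s) S : ℝ) * (hh G (q + j + s) S : ℝ)) := by
  calc (zz G q j S : ℝ)
      = ∑ t ∈ range (j + 1), (j.choose t : ℝ) * (ee G (q + 2 * (j - t)) t S : ℝ) := by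
        rw [zz_eq]
        push_cast
        rfl
    _ = ∑ t ∈ range (j + 1), (∑ s ∈ range (j + 1), be q j s *
          (((j - s).choose t : ℝ) * ((q + j + s).descFactorial t : ℝ))) *
            (ee G (q + 2 * (j - t)) t S : ℝ) := by
        refine sum_congr rfl fun t ht => ?_
        rw [be_sum q j t hq (by have := mem_range.1 ht; omega)]
    _ = ∑ s ∈ range (j + 1), be q j s * ∑ t ∈ range (j + 1),
          (((j - s).choose t : ℝ) * ((q + j + s).descFactorial t : ℝ)) *
            (ee G (q + 2 * (j - t)) t S : ℝ) := by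
        simp only [sum_mul, mul_sum]
        rw [sum_comm]
        refine sum_congr rfl fun s _ => sum_congr rfl fun t _ => ?_
        ring
    _ ≤ _ := by
        refine sum_le_sum fun s hs => mul_le_mul_of_nonneg_left ?_ (be_nonneg q j s)
        exact up_prod G q j s (by have := mem_range.1 hs; omega) S

end

private theorem up_term {V : Type} [Fintype V] [DecidableEq V] (G : SimpleGraph V)
    [DecidableRel G.Adj] {q j u r Δ s : ℕ} (hs : s ≤ j) (hu : 1 ≤ u) (huq : u ≤ q + 1)
    (hf : G.CliqueFree (r + 2)) (hΔ : ∀ v, G.degree v ≤ Δ) :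
    (∑ v, hh G (j - s) (nb G univ v) * hh G (q + j + s) (nb G univ v)) *
        ((r + 1).choose u * r ^ (q + 2 * j + 1 - u)) ≤
      (r + 1) * (r.descFactorial (j - s) * r.descFactorial (q + j + s)) *
        Δ ^ (q + 2 * j + 1 - u) * kk G u := by
  obtain ⟨u', rfl⟩ : ∃ u', u = u' + 1 := ⟨u - 1, by omega⟩
  obtain ⟨i, hi⟩ : ∃ i, q + j + s + 1 = u' + 1 + i := ⟨q + j + s + 1 - (u' + 1), by omega⟩
  have he : q + 2 * j + 1 - (u' + 1) = (j - s) + i := by omega
  have hm := main_bound hf hΔ u' i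
  rw [← hi] at hm
  have h1 : ∀ v : V, hh G (j - s) (nb G univ v) * r ^ (j - s) ≤
      r.descFactorial (j - s) * Δ ^ (j - s) := fun v => hh_nb_le G hf hΔ (j - s) v
  have h2 : ∑ v, hh G (q + j + s) (nb G univ v) =
      (q + j + s + 1).factorial * kk G (q + j + s + 1) := by
    rw [← hh_univ G (q + j + s + 1)]
    rfl
  have h3 : (q + j + s + 1).factorial * (r + 1).choose (q + j + s + 1) =
      (r + 1) * r.descFactorial (q + j + s) := by
    rw [← Nat.descFactorial_eq_factorial_mul_choose, Nat.succ_descFactorial_succ]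
  calc (∑ v, hh G (j - s) (nb G univ v) * hh G (q + j + s) (nb G univ v)) *
        ((r + 1).choose (u' + 1) * r ^ (q + 2 * j + 1 - (u' + 1)))
      = (∑ v, (hh G (j - s) (nb G univ v) * r ^ (j - s)) * hh G (q + j + s) (nb G univ v)) *
        ((r + 1).choose (u' + 1) * r ^ i) := by
        rw [he, pow_add, sum_mul, sum_mul]
        refine sum_congr rfl fun v _ => ?_
        ring
    _ ≤ (∑ v, (r.descFactorial (j - s) * Δ ^ (j - s)) * hh G (q + j + s) (nb G univ v)) *
        ((r + 1).choose (u' + 1) * r ^ i) := by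
        refine Nat.mul_le_mul_right _ (sum_le_sum fun v _ => ?_)
        exact Nat.mul_le_mul_right _ (h1 v)
    _ = (r.descFactorial (j - s) * Δ ^ (j - s)) * (q + j + s + 1).factorial *
        (kk G (q + j + s + 1) * (r + 1).choose (u' + 1) * r ^ i) := by
        rw [← mul_sum, h2]
        ring
    _ ≤ (r.descFactorial (j - s) * Δ ^ (j - s)) * (q + j + s + 1).factorial *
        ((r + 1).choose (q + j + s + 1) * Δ ^ i * kk G (u' + 1)) := Nat.mul_le_mul_left _ hm
    _ = (r.descFactorial (j - s) * Δ ^ (j - s)) *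
        ((q + j + s + 1).factorial * (r + 1).choose (q + j + s + 1)) *
        (Δ ^ i * kk G (u' + 1)) := by ring
    _ = _ := by
        rw [h3, he, pow_add]
        ring

theorem sum_zz_le {V : Type} [Fintype V] [DecidableEq V] (G : SimpleGraph V) [DecidableRel G.Adj]
    {q j u r Δ : ℕ} (hq : 1 ≤ q) (hu : 1 ≤ u) (huq : u ≤ q + 1)
    (hf : G.CliqueFree (r + 2)) (hΔ : ∀ v, G.degree v ≤ Δ) :
    (∑ v, (zz G q j (nb G univ v) : ℝ)) * ((r + 1).choose u * (r : ℝ) ^ (q + 2 * j + 1 - u)) ≤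
      ((r : ℝ) + 1) * (zz (⊤ : SimpleGraph (Fin r)) q j univ : ℝ) *
        (Δ : ℝ) ^ (q + 2 * j + 1 - u) * kk G u := by
  have h1 : (∑ v, (zz G q j (nb G univ v) : ℝ)) ≤ ∑ s ∈ range (j + 1), be q j s *
      ∑ v, (hh G (j - s) (nb G univ v) : ℝ) * (hh G (q + j + s) (nb G univ v) : ℝ) := by
    refine (sum_le_sum fun v _ => zz_le G q j hq (nb G univ v)).trans (le_of_eq ?_)
    rw [sum_comm]
    refine sum_congr rfl fun s _ => ?_
    rw [mul_sum]
  have h0 : (0 : ℝ) ≤ ((r + 1).choose u * (r : ℝ) ^ (q + 2 * j + 1 - u)) := by positivity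
  refine (mul_le_mul_of_nonneg_right h1 h0).trans ?_
  rw [zz_top q j hq, sum_mul]
  simp only [card_univ, Fintype.card_fin]
  rw [mul_sum, sum_mul, sum_mul]
  refine sum_le_sum fun s hs => ?_
  have h2 := up_term G (q := q) (j := j) (u := u) (r := r) (Δ := Δ) (s := s)
    (by have := mem_range.1 hs; omega) hu huq hf hΔ
  have h3 : (∑ v, (hh G (j - s) (nb G univ v) : ℝ) * (hh G (q + j + s) (nb G univ v) : ℝ)) *
        (((r + 1).choose u : ℝ) * (r : ℝ) ^ (q + 2 * j + 1 - u)) ≤
      ((r : ℝ) + 1) * ((r.descFactorial (j - s) : ℝ) * (r.descFactorial (q + j + s) : ℝ)) *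
        (Δ : ℝ) ^ (q + 2 * j + 1 - u) * (kk G u : ℝ) := by
    exact_mod_cast h2
  calc be q j s * (∑ v, (hh G (j - s) (nb G univ v) : ℝ) *
          (hh G (q + j + s) (nb G univ v) : ℝ)) *
        (((r + 1).choose u : ℝ) * (r : ℝ) ^ (q + 2 * j + 1 - u))
      = be q j s * ((∑ v, (hh G (j - s) (nb G univ v) : ℝ) *
          (hh G (q + j + s) (nb G univ v) : ℝ)) *
        (((r + 1).choose u : ℝ) * (r : ℝ) ^ (q + 2 * j + 1 - u))) := by ring
    _ ≤ be q j s * (((r : ℝ) + 1) * ((r.descFactorial (j - s) : ℝ) *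
          (r.descFactorial (q + j + s) : ℝ)) *
        (Δ : ℝ) ^ (q + 2 * j + 1 - u) * (kk G u : ℝ)) :=
        mul_le_mul_of_nonneg_left h3 (be_nonneg q j s)
    _ = _ := by ring

private theorem up_cliques {V : Type} [Fintype V] [DecidableEq V] (G : SimpleGraph V)
    [DecidableRel G.Adj] (f : Finset V → ℕ) :
    ∑ Q ∈ G.cliqueFinset 1, f (cnb G Q) = ∑ v, f (nb G univ v) := by
  have h1 : G.cliqueFinset 1 = univ.map ⟨fun v : V => ({v} : Finset V),
      fun a b h => singleton_injective h⟩ := by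
    ext Q
    rw [mem_cliqueFinset_iff, mem_map]
    constructor
    · intro h
      obtain ⟨a, ha⟩ := card_eq_one.1 h.2
      exact ⟨a, mem_univ _, ha.symm⟩
    · rintro ⟨a, _, rfl⟩
      refine ⟨?_, card_singleton a⟩
      intro x hx y hy hxy
      exact absurd ((mem_singleton.1 hx).trans (mem_singleton.1 hy).symm) hxy
  rw [h1, sum_map]
  refine sum_congr rfl fun v _ => ?_
  congr 1
  ext x
  rw [mem_cnb, nb, mem_filter]
  change (∀ d ∈ ({v} : Finset V), G.Adj x d) ↔ _
  constructor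
  · intro h
    exact ⟨mem_univ _, (h v (mem_singleton_self v)).symm⟩
  · intro h d hd
    rw [mem_singleton] at hd
    subst hd
    exact h.2.symm

private theorem up_hom {W : Type} [Fintype W] [DecidableEq W] {H : SimpleGraph W} {D : Finset W}
    {u : ℕ} (hM : Mt H) (hD : D.card = u)
    (hdom : ∀ v ∈ D, ∀ w, w ≠ v → H.Adj v w) (hu : 2 ≤ u) :
    ∃ (d : W) (q j : ℕ), (∀ v ∈ ({d} : Finset W), ∀ w, w ≠ v → H.Adj v w) ∧
      Fintype.card W = q + 2 * j + 1 ∧ 1 ≤ q ∧ u ≤ q + 1 ∧
      ∀ (V : Type) [Fintype V] [DecidableEq V] (G : SimpleGraph V) [DecidableRel G.Adj]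
        (S : Finset V), Nat.card (HomsIn (rest H {d}) G S) = zz G q j S := by
  have hne : D.Nonempty := card_pos.1 (by omega)
  obtain ⟨d, hd⟩ := hne
  have hMt : Mt (rest H {d}) := by
    intro a b c hb hc h1 h2
    exact Subtype.ext (hM a.1 b.1 c.1 (fun h => hb (Subtype.ext h)) (fun h => hc (Subtype.ext h))
      h1 h2)
  obtain ⟨q, j, h1, h2, h3⟩ := hom_zz _ _ (rest H {d}) rfl hMt
  have hcr := card_rest (W := W) {d} (card_singleton d)
  have h4 : u - 1 ≤ q := by
    have h5 := h2 (D.subtype (fun w => w ∉ ({d} : Finset W))) (by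
      intro v hv w hw
      rw [mem_subtype] at hv
      exact hdom v.1 hv w.1 (fun h => hw (Subtype.ext h)))
    refine le_trans (le_of_eq ?_) h5
    rw [card_subtype]
    have h6 : D.filter (fun w => w ∉ ({d} : Finset W)) = D.erase d := by
      ext x
      simp only [mem_filter, mem_singleton, mem_erase]
      tauto
    rw [h6, card_erase_of_mem hd, hD]
  refine ⟨d, q, j, ?_, by omega, by omega, by omega, h3⟩
  intro v hv w hw
  rw [mem_singleton] at hv
  subst hv
  exact hdom v hd w hw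

theorem copies_le {W : Type} [Fintype W] [DecidableEq W] {H : SimpleGraph W} {D : Finset W}
    {u w Δ : ℕ} {V : Type} [Fintype V] [DecidableEq V] {G : SimpleGraph V} [DecidableRel G.Adj]
    (hM : Mt H) (hD : D.card = u) (hdom : ∀ v ∈ D, ∀ w, w ≠ v → H.Adj v w) (hu : 2 ≤ u)
    (huw : u < w) (hf : G.CliqueFree (w + 1)) (hΔ : ∀ v, G.degree v ≤ Δ) :
    (G.copyCount H : ℝ) ≤ Lc H u w * (Δ : ℝ) ^ (Fintype.card W - u) * kk G u := by
  obtain ⟨d, q, j, h1, h2, h3, h4, h5⟩ := up_hom hM hD hdom hu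
  obtain ⟨r, rfl⟩ : ∃ r, w = r + 1 := ⟨w - 1, by omega⟩
  have hr : (0 : ℝ) < r := by exact_mod_cast (by omega : 0 < r)
  have haut : (0 : ℝ) < Nat.card (H ≃g H) := by exact_mod_cast aut_pos (H := H)
  have hch : (0 : ℝ) < ((r + 1).choose u : ℝ) := by exact_mod_cast Nat.choose_pos huw.le
  have c1 : Nat.card (Copy H G) ≤ ∑ v, zz G q j (nb G univ v) := by
    refine (card_copy_le (G := G) (card_singleton d) h1).trans (le_of_eq ?_)
    rw [← up_cliques G (fun S => zz G q j S)]
    refine sum_congr rfl fun Q _ => ?_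
    rw [h5 V G, Nat.factorial_one, one_mul]
  have c2 : (Nat.card (Copy H G) : ℝ) ≤ ∑ v, (zz G q j (nb G univ v) : ℝ) := by
    exact_mod_cast c1
  have c3 := sum_zz_le G (q := q) (j := j) (u := u) (r := r) (Δ := Δ) h3 (by omega) h4 hf hΔ
  have c4 : (Nat.card (H →g (⊤ : SimpleGraph (Fin (r + 1)))) : ℝ) =
      ((r : ℝ) + 1) * (zz (⊤ : SimpleGraph (Fin r)) q j univ : ℝ) := by
    rw [card_col (card_singleton d) h1 (r + 1), Nat.descFactorial_one]
    have e1 : Nat.card (rest H {d} →g (⊤ : SimpleGraph (Fin (r + 1 - 1)))) =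
        Nat.card (HomsIn (rest H {d}) (⊤ : SimpleGraph (Fin r)) univ) :=
      Nat.card_congr
        ⟨fun f => ⟨fun i => f i, fun i => mem_univ _, fun a b hab => f.map_adj hab⟩,
          fun x => ⟨x.1, fun {a b} hab => x.2.2 a b hab⟩, fun f => rfl, fun x => rfl⟩
    rw [e1, h5 (Fin r) (⊤ : SimpleGraph (Fin r)) univ]
    push_cast
    ring
  have c5 : (Nat.card (Copy H G) : ℝ) = G.copyCount H * Nat.card (H ≃g H) := by
    exact_mod_cast card_copy (G := G) (H := H)
  have e2 : Fintype.card W - u = q + 2 * j + 1 - u := by omega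
  unfold Lc
  rw [c4, e2]
  have hpos : (0 : ℝ) < (r + 1).choose u * (r : ℝ) ^ (q + 2 * j + 1 - u) := by positivity
  have c6 := (mul_le_mul_of_nonneg_right c2 hpos.le).trans c3
  rw [c5] at c6
  have e3 : (((r + 1 : ℕ) : ℝ) - 1) = r := by push_cast; ring
  rw [e3, div_mul_eq_mul_div, div_mul_eq_mul_div, le_div_iff₀ (by positivity)]
  calc (G.copyCount H : ℝ) * (Nat.card (H ≃g H) * (r + 1).choose u * (r : ℝ) ^ (q + 2 * j + 1 - u))
      = (G.copyCount H : ℝ) * Nat.card (H ≃g H) *
        ((r + 1).choose u * (r : ℝ) ^ (q + 2 * j + 1 - u)) := by ring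
    _ ≤ _ := c6

end MP5cc280.Nm
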